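import Pool.Agent.helper52.WP.SpecB

set_option autoImplicit false

open Complex Metric Set Filter Topology MeasureTheory
open V3S (UF)
open WP
open PPS (pre TT fd)
open XPS (Df er)

noncomputable section

namespace WPB

theorem VIT_eval (n : ℕ) (c z : ℂ) : (GR.fp n c).eval z = z ^ n + c := by
  simp [GR.fp]

theorem VIT_der1 (n : ℕ) (c z : ℂ) : HasDerivAt (fun w : ℂ => (GR.fp n c).eval w) (MPS.fd n z) z := by
  have h := (GR.fp n c).hasDerivAt z
  have h2 : (GR.fp n c).derivative.eval z = MPS.fd n z := by
    simp [GR.fp, MPS.fd, Polynomial.derivative_X_pow]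
  rw [h2] at h
  exact h

theorem VIT_succ (n : ℕ) (c : ℂ) (k : ℕ) : it (GR.fp n c) (k + 1) = fun z => (GR.fp n c).eval (it (GR.fp n c) k z) := by
  funext z
  simp only [it, Function.iterate_succ_apply']

theorem VIT_diff (n : ℕ) (c : ℂ) (k : ℕ) : Differentiable ℂ (it (GR.fp n c) k) := by
  induction k with
  | zero =>
    have h : it (GR.fp n c) 0 = fun z => z := by
      funext z
      simp [it]
    rw [h]
    exact differentiable_id
  | succ k ih =>
    rw [VIT_succ]
    exact (GR.fp n c).differentiable.comp ih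

theorem VIT_der (n : ℕ) (c : ℂ) (k : ℕ) (a : ℂ) :
    deriv (it (GR.fp n c) (k + 1)) a = MPS.fd n (it (GR.fp n c) k a) * deriv (it (GR.fp n c) k) a := by
  rw [VIT_succ]
  have h1 := VIT_der1 n c (it (GR.fp n c) k a)
  have h2 := (VIT_diff n c k a).hasDerivAt
  exact (h1.comp a h2).deriv

theorem VIT : VIT_stmt := by
  intro n c v hn hv k
  induction k with
  | zero =>
    intro a _
    have h : it (GR.fp n c) 0 = fun z => z := by
      funext z
      simp [it]
    rw [h]
    simp
  | succ k ih =>
    intro a ha
    have hd := VIT_der n c k a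
    have h1 : deriv (it (GR.fp n c) k) a ≠ 0 := by
      intro h0
      rw [hd, h0, mul_zero] at ha
      exact ha rfl
    have h2 : MPS.fd n (it (GR.fp n c) k a) ≠ 0 := by
      intro h0
      rw [hd, h0, zero_mul] at ha
      exact ha rfl
    have h3 := ih a h1
    have h4 : it (GR.fp n c) (k + 1) a = (it (GR.fp n c) k a) ^ n + c := by
      rw [VIT_succ]
      exact VIT_eval n c _
    rw [Finset.sum_Icc_succ_top (by omega), h3, h4, hv, hd]
    field_simp
    ring

end WPB
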